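import Pool.Agent.H839R3.Nas.Stmts

set_option autoImplicit false

namespace Pool.Agent.H790.Nas

open FirstOrder FirstOrder.Language
open Pool.Agent.Helper672.Plain (LSet Mem IsPair IsOrdPair)
open Pool.Agent.H310Cards
open Pool.Agent.H839R3.Nas (DZ)

universe u

section DA

variable {M : Type u} [LSet.Structure M]

/-- Definability with parameters in `A`. -/
def DA (A : Set M) {ι : Type} (p : (ι → M) → Prop) : Prop := A.Definable LSet {v | p v}

/-- Terms: variables and parameters. -/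
def TA (A : Set M) {ι : Type} (t : (ι → M) → M) : Prop :=
  ∃ τ : LSet[[A]].Term ι, ∀ v, τ.realize v = t v

variable {A : Set M} {ι : Type}

theorem TA.var (i : ι) : TA A (fun v : ι → M => v i) := ⟨Term.var i, fun _ => rfl⟩

theorem TA.const {a : M} (ha : a ∈ A) : TA A (fun _ : ι → M => a) :=
  ⟨(LSet.con (⟨a, ha⟩ : A)).term, fun v => by
    simp [Term.realize_constants]⟩

theorem TA.up {t : (ι → M) → M} (h : TA A t) {κ : Type} :
    TA A (fun w : ι ⊕ κ → M => t (fun i => w (Sum.inl i))) := by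
  obtain ⟨τ, hτ⟩ := h
  refine ⟨τ.relabel Sum.inl, fun v => ?_⟩
  rw [Term.realize_relabel]
  exact hτ _

theorem DA.not {p : (ι → M) → Prop} (hp : DA A p) : DA A (fun v => ¬ p v) := by
  have h := Set.Definable.compl hp
  exact h

theorem DA.and {p q : (ι → M) → Prop} (hp : DA A p) (hq : DA A q) :
    DA A (fun v => p v ∧ q v) := by
  have h := Set.Definable.inter hp hq
  exact h

theorem DA.or {p q : (ι → M) → Prop} (hp : DA A p) (hq : DA A q) :
    DA A (fun v => p v ∨ q v) := by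
  have h := Set.Definable.union hp hq
  exact h

theorem DA.imp {p q : (ι → M) → Prop} (hp : DA A p) (hq : DA A q) :
    DA A (fun v => p v → q v) := by
  have h := (hp.not).or hq
  refine Eq.mp (congrArg (DA A) ?_) h
  funext v
  exact propext imp_iff_not_or.symm

theorem DA.iff {p q : (ι → M) → Prop} (hp : DA A p) (hq : DA A q) :
    DA A (fun v => (p v ↔ q v)) := by
  have h := (hp.imp hq).and (hq.imp hp)
  refine Eq.mp (congrArg (DA A) ?_) h
  funext v
  exact propext iff_iff_implies_and_implies.symm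

theorem DA.cst (P : Prop) : DA A (fun _ : ι → M => P) := by
  by_cases h : P
  · have h1 : DA A (fun _ : ι → M => True) := Set.definable_univ
    simpa [h] using h1
  · have h1 : DA A (fun _ : ι → M => False) := Set.definable_empty
    simpa [h] using h1

theorem DA.exN {κ : Type} [Finite κ] {p : (ι → M) → (κ → M) → Prop}
    (h : DA A (fun w : ι ⊕ κ → M => p (fun i => w (Sum.inl i)) (fun k => w (Sum.inr k)))) :
    DA A (fun v => ∃ x, p v x) := by
  have h1 := Set.Definable.exists_of_finite (β := κ) h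
  exact h1

theorem DA.ex {p : (ι → M) → M → Prop}
    (h : DA A (fun w : ι ⊕ Unit → M => p (fun i => w (Sum.inl i)) (w (Sum.inr ())))) :
    DA A (fun v => ∃ x, p v x) := by
  have h1 := Set.Definable.exists_of_finite (β := Unit) h
  refine Eq.mp (congrArg (DA A) ?_) h1
  funext v
  refine propext ⟨fun ⟨a, ha⟩ => ⟨a (), ha⟩, fun ⟨x, hx⟩ => ⟨fun _ => x, hx⟩⟩

theorem DA.all {p : (ι → M) → M → Prop}
    (h : DA A (fun w : ι ⊕ Unit → M => p (fun i => w (Sum.inl i)) (w (Sum.inr ())))) :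
    DA A (fun v => ∀ x, p v x) := by
  have h1 := Set.Definable.forall_of_finite (β := Unit) h
  refine Eq.mp (congrArg (DA A) ?_) h1
  funext v
  refine propext ⟨fun h2 x => h2 fun _ => x, fun h2 a => h2 (a ())⟩

theorem DA.fall {κ : Type} [Finite κ] {p : κ → (ι → M) → Prop} (h : ∀ k, DA A (p k)) :
    DA A (fun v => ∀ k, p k v) := by
  have h1 := Set.definable_iInter_of_finite h
  refine Eq.mp (congrArg (fun s => A.Definable LSet s) ?_) h1
  ext v
  simp

theorem DA.fex {κ : Type} [Finite κ] {p : κ → (ι → M) → Prop} (h : ∀ k, DA A (p k)) :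
    DA A (fun v => ∃ k, p k v) := by
  have h1 := DA.not (DA.fall fun k => DA.not (h k))
  refine Eq.mp (congrArg (DA A) ?_) h1
  funext v
  simp

theorem DA.mem {s t : (ι → M) → M} (hs : TA A s) (ht : TA A t) :
    DA A (fun v => Mem (s v) (t v)) := by
  obtain ⟨σ, hσ⟩ := hs
  obtain ⟨τ, hτ⟩ := ht
  refine ⟨Relations.formula₂ (((LSet.lhomWithConstants A).onRelation
    (Helper672.Plain.Sym.mem : LSet.Relations 2))) σ τ, ?_⟩
  ext v
  simp only [Set.mem_ofPred_eq, Formula.realize_rel₂, hσ, hτ]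
  rfl

theorem DA.eq {s t : (ι → M) → M} (hs : TA A s) (ht : TA A t) : DA A (fun v => s v = t v) := by
  obtain ⟨σ, hσ⟩ := hs
  obtain ⟨τ, hτ⟩ := ht
  refine ⟨σ.equal τ, ?_⟩
  ext v
  simp only [Set.mem_ofPred_eq, Formula.realize_equal, hσ, hτ]

theorem DA.reindex {κ : Type} {p : (ι → M) → Prop} (hp : DA A p) (e : ι → κ) :
    DA A (fun w : κ → M => p (fun i => w (e i))) := Set.Definable.preimage_comp e hp

/-! ### Formulas of set theory -/

variable {s t x y z : (ι → M) → M}

theorem DA.pair (hs : TA A s) (hx : TA A x) (hy : TA A y) :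
    DA A (fun v => IsPair (s v) (x v) (y v)) :=
  DA.all (DA.iff (DA.mem (TA.var _) hs.up) (DA.or (DA.eq (TA.var _) hx.up)
    (DA.eq (TA.var _) hy.up)))

theorem DA.ordPair (hs : TA A s) (hx : TA A x) (hy : TA A y) :
    DA A (fun v => IsOrdPair (s v) (x v) (y v)) :=
  DA.ex (DA.ex (DA.and (DA.pair (TA.var _) hx.up.up hx.up.up)
    (DA.and (DA.pair (TA.var _) hx.up.up hy.up.up)
      (DA.pair hs.up.up (TA.var _) (TA.var _)))))

theorem DA.app (hs : TA A s) (hx : TA A x) (hy : TA A y) :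
    DA A (fun v => App (s v) (x v) (y v)) :=
  DA.ex (DA.and (DA.ordPair (TA.var _) hx.up hy.up) (DA.mem (TA.var _) hs.up))

theorem DA.inductive (hs : TA A s) : DA A (fun v => IsInductive (s v)) :=
  DA.and (DA.ex (DA.and (DA.mem (TA.var _) hs.up) (DA.all (DA.not
    (DA.mem (TA.var _) (TA.var _)))))) (DA.all (DA.imp (DA.mem (TA.var _) hs.up)
    (DA.ex (DA.and (DA.mem (TA.var _) hs.up.up) (DA.all (DA.iff (DA.mem (TA.var _) (TA.var _))
      (DA.or (DA.mem (TA.var _) (TA.var _)) (DA.eq (TA.var _) (TA.var _)))))))))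

theorem DA.nat (hs : TA A s) : DA A (fun v => IsNat (s v)) :=
  DA.all (DA.imp (DA.inductive (TA.var _)) (DA.mem hs.up (TA.var _)))

theorem DA.isFun (hs : TA A s) (hx : TA A x) (hy : TA A y) :
    DA A (fun v => IsFun (s v) (x v) (y v)) :=
  DA.and (DA.all (DA.imp (DA.mem (TA.var _) hs.up) (DA.ex (DA.ex (DA.and
    (DA.mem (TA.var _) hx.up.up.up) (DA.and (DA.mem (TA.var _) hy.up.up.up)
      (DA.ordPair (TA.var _) (TA.var _) (TA.var _))))))))
    (DA.all (DA.imp (DA.mem (TA.var _) hx.up) (DA.ex (DA.and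
      (DA.app hs.up.up (TA.var _) (TA.var _))
      (DA.all (DA.imp (DA.app hs.up.up.up (TA.var _) (TA.var _))
        (DA.eq (TA.var _) (TA.var _))))))))

theorem DA.isInj (hs : TA A s) (hx : TA A x) (hy : TA A y) :
    DA A (fun v => IsInj (s v) (x v) (y v)) :=
  DA.and (DA.isFun hs hx hy) (DA.all (DA.all (DA.all (DA.imp
    (DA.app hs.up.up.up (TA.var _) (TA.var _)) (DA.imp
    (DA.app hs.up.up.up (TA.var _) (TA.var _)) (DA.eq (TA.var _) (TA.var _)))))))

theorem DA.isBij (hs : TA A s) (hx : TA A x) (hy : TA A y) :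
    DA A (fun v => IsBij (s v) (x v) (y v)) :=
  DA.and (DA.isInj hs hx hy) (DA.all (DA.imp (DA.mem (TA.var _) hy.up)
    (DA.ex (DA.app hs.up.up (TA.var _) (TA.var _)))))

theorem DA.isFinite (hs : TA A s) : DA A (fun v => IsFinite (s v)) :=
  DA.ex (DA.ex (DA.and (DA.nat (TA.var _)) (DA.isBij (TA.var _) hs.up.up (TA.var _))))

/-- `x` is in the union of the finite values of `s` at `y`. -/
def RR (s y x : M) : Prop := ∃ Z, IsFinite Z ∧ App s y Z ∧ Mem x Z

theorem DA.rr (hs : TA A s) (hy : TA A y) (hx : TA A x) :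
    DA A (fun v => RR (s v) (y v) (x v)) :=
  DA.ex (DA.and (DA.isFinite (TA.var _)) (DA.and (DA.app hs.up hy.up (TA.var _))
    (DA.mem hx.up (TA.var _))))

/-- `z` is the sum of `x` and `y` -/
def Sum3 (s x y z : M) : Prop := ∃ q w, IsOrdPair q x y ∧ IsOrdPair w q z ∧ Mem w s

theorem DA.sum3 (hs : TA A s) (hx : TA A x) (hy : TA A y) (hz : TA A z) :
    DA A (fun v => Sum3 (s v) (x v) (y v) (z v)) :=
  DA.ex (DA.ex (DA.and (DA.ordPair (TA.var _) hx.up.up hy.up.up)
    (DA.and (DA.ordPair (TA.var _) (TA.var _) hz.up.up) (DA.mem (TA.var _) hs.up.up))))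

end DA

end Pool.Agent.H790.Nas
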