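import Pool.Agent.H790.Nas.Def

set_option autoImplicit false

namespace Pool.Agent.H790.Nas

open FirstOrder FirstOrder.Language
open Pool.Agent.Helper672.Plain (LSet Mem IsPair IsOrdPair Zermelo)
open Pool.Agent.H310Cards
open Pool.Agent.H635Amen (ZF)

universe u

section Z

variable {M : Type u} [LSet.Structure M] [hZ : Zermelo M]

theorem extM {x y : M} (h : ∀ z, Mem z x ↔ Mem z y) : x = y := hZ.ext x y h

theorem exists_pair (x y : M) : ∃ p : M, IsPair p x y := hZ.pairing x y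

theorem pair_unique {p q x y : M} (h : IsPair p x y) (h' : IsPair q x y) : p = q :=
  extM fun z => (h z).trans (h' z).symm

theorem exists_ordPair (x y : M) : ∃ q : M, IsOrdPair q x y := by
  obtain ⟨s, hs⟩ := exists_pair x x
  obtain ⟨d, hd⟩ := exists_pair x y
  obtain ⟨q, hq⟩ := exists_pair s d
  exact ⟨q, s, d, hs, hd, hq⟩

theorem ordPair_unique {p q x y : M} (h : IsOrdPair p x y) (h' : IsOrdPair q x y) : p = q := by
  obtain ⟨s, d, h1, h2, h3⟩ := h
  obtain ⟨s', d', h1', h2', h3'⟩ := h'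
  obtain rfl := pair_unique h1 h1'
  obtain rfl := pair_unique h2 h2'
  exact pair_unique h3 h3'

theorem ordPair_inj {q x y x' y' : M} (h : IsOrdPair q x y) (h' : IsOrdPair q x' y') :
    x = x' ∧ y = y' := by
  obtain ⟨s, d, h1, h2, h3⟩ := h
  obtain ⟨s', d', h1', h2', h3'⟩ := h'
  unfold IsPair at h1 h2 h3 h1' h2' h3'
  have hs : s = s' ∨ s = d' := (h3' s).1 ((h3 s).2 (Or.inl rfl))
  have hd : d = s' ∨ d = d' := (h3' d).1 ((h3 d).2 (Or.inr rfl))
  have hs' : s' = s ∨ s' = d := (h3 s').1 ((h3' s').2 (Or.inl rfl))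
  have hd' : d' = s ∨ d' = d := (h3 d').1 ((h3' d').2 (Or.inr rfl))
  have hxs : ∀ z, Mem z s ↔ z = x := fun z => (h1 z).trans (by simp)
  have hxs' : ∀ z, Mem z s' ↔ z = x' := fun z => (h1' z).trans (by simp)
  have hx : x = x' := by
    rcases hs with h | h
    · have := (hxs x).2 rfl
      rw [h, hxs'] at this
      exact this
    · have h4 : Mem x' s := by rw [h, h2']; exact Or.inl rfl
      exact ((hxs x').1 h4).symm
  refine ⟨hx, ?_⟩
  subst hx
  have hss : s = s' := extM fun z => (hxs z).trans (hxs' z).symm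
  subst hss
  -- now compare `d` and `d'`
  have hdd : d = d' := by
    rcases hd with h | h
    · rcases hd' with h4 | h4
      · rw [h, h4]
      · exact h4.symm
    · exact h
  subst hdd
  have h5 : y = x ∨ y = y' := (h2' y).1 ((h2 y).2 (Or.inr rfl))
  have h6 : y' = x ∨ y' = y := (h2 y').1 ((h2' y').2 (Or.inr rfl))
  rcases h5 with h5 | h5
  · rcases h6 with h6 | h6
    · rw [h5, h6]
    · exact h6.symm
  · exact h5

theorem app_iff {f x y q : M} (hq : IsOrdPair q x y) : App f x y ↔ Mem q f :=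
  ⟨fun ⟨q', h1, h2⟩ => ordPair_unique h1 hq ▸ h2, fun h => ⟨q, hq, h⟩⟩

theorem exists_empty : ∃ e : M, ∀ z, ¬ Mem z e := by
  obtain ⟨i, ⟨e, -, he⟩, -⟩ := hZ.infinity
  exact ⟨e, he⟩

theorem exists_union2 (x y : M) : ∃ u : M, ∀ z, Mem z u ↔ Mem z x ∨ Mem z y := by
  obtain ⟨p, hp⟩ := exists_pair x y
  obtain ⟨u, hu⟩ := hZ.union p
  refine ⟨u, fun z => (hu z).trans ⟨?_, ?_⟩⟩
  · rintro ⟨w, h1, h2⟩
    rcases (hp w).1 h1 with rfl | rfl
    · exact Or.inl h2
    · exact Or.inr h2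
  · rintro (h | h)
    · exact ⟨x, (hp x).2 (Or.inl rfl), h⟩
    · exact ⟨y, (hp y).2 (Or.inr rfl), h⟩

theorem exists_insert (x y : M) : ∃ u : M, ∀ z, Mem z u ↔ Mem z x ∨ z = y := by
  obtain ⟨p, hp⟩ := exists_pair y y
  obtain ⟨u, hu⟩ := exists_union2 x p
  exact ⟨u, fun z => (hu z).trans (or_congr Iff.rfl ((hp z).trans (by simp)))⟩

/-- finite sets exist -/
theorem exists_of_finite {s : Set M} (hs : s.Finite) : ∃ t : M, ∀ z, Mem z t ↔ z ∈ s := by
  induction s, hs using Set.Finite.induction_on with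
  | empty =>
    obtain ⟨e, he⟩ := exists_empty (M := M)
    exact ⟨e, fun z => by simp [he z]⟩
  | insert _ _ ih =>
    obtain ⟨t, ht⟩ := ih
    rename_i a s _ _
    obtain ⟨u, hu⟩ := exists_insert t a
    refine ⟨u, fun z => ?_⟩
    rw [hu, ht, Set.mem_insert_iff, or_comm]

/-- separation in the form needed -/
theorem sep {S : M → Prop} (hS : DA (Set.univ : Set M) (fun v : Fin 1 → M => S (v 0))) (x : M) :
    ∃ y, ∀ z, Mem z y ↔ Mem z x ∧ S z :=
  hZ.separation {z | S z} hS x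

/-- product -/
theorem exists_prod (x y : M) : ∃ p : M, ∀ a b q, Mem a x → Mem b y → IsOrdPair q a b → Mem q p := by
  obtain ⟨u, hu⟩ := exists_union2 x y
  obtain ⟨p1, hp1⟩ := hZ.power u
  obtain ⟨p2, hp2⟩ := hZ.power p1
  refine ⟨p2, fun a b q ha hb hq => ?_⟩
  obtain ⟨s, d, h1, h2, h3⟩ := hq
  rw [hp2]
  intro w hw
  rw [hp1]
  intro t ht
  rw [hu]
  rcases (h3 w).1 hw with rfl | rfl
  · rcases (h1 t).1 ht with rfl | rfl
    · exact Or.inl ha
    · exact Or.inl ha
  · rcases (h2 t).1 ht with rfl | rfl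
    · exact Or.inl ha
    · exact Or.inr hb

end Z

section F

variable {M : Type u} [LSet.Structure M] [hZ : ZF M]

theorem not_mem_self (x : M) : ¬ Mem x x := by
  intro h
  obtain ⟨p, hp⟩ := exists_pair x x
  obtain ⟨y, h1, h2⟩ := hZ.foundation p ⟨x, (hp x).2 (Or.inl rfl)⟩
  have hy : y = x := by
    rcases (hp y).1 h1 with h | h <;> exact h
  subst hy
  exact h2 y h1 h

/-- numerals -/
theorem exists_num : ∃ num : ℕ → M, (∀ k, IsNat (num k)) ∧ Function.Injective num ∧
    ∀ k z, Mem z (num k) ↔ ∃ j, j < k ∧ z = num j := by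
  obtain ⟨e, he⟩ := exists_empty (M := M)
  choose suc hsuc using fun x : M => exists_insert x x
  let num : ℕ → M := fun k => Nat.rec e (fun _ x => suc x) k
  have h0 : num 0 = e := rfl
  have h1 : ∀ k, num (k + 1) = suc (num k) := fun k => rfl
  have hm : ∀ k z, Mem z (num k) ↔ ∃ j, j < k ∧ z = num j := by
    intro k
    induction k with
    | zero =>
      intro z
      rw [h0]
      exact ⟨fun h => absurd h (he z), fun ⟨j, hj, _⟩ => absurd hj (by omega)⟩
    | succ k ih =>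
      intro z
      rw [h1, hsuc, ih]
      constructor
      · rintro (⟨j, hj, rfl⟩ | rfl)
        · exact ⟨j, by omega, rfl⟩
        · exact ⟨k, by omega, rfl⟩
      · rintro ⟨j, hj, rfl⟩
        by_cases hjk : j = k
        · subst hjk; exact Or.inr rfl
        · exact Or.inl ⟨j, by omega, rfl⟩
  refine ⟨num, fun k => ?_, ?_, hm⟩
  · intro i hi
    induction k with
    | zero =>
      obtain ⟨⟨e', h2, h3⟩, -⟩ := hi
      have : e' = num 0 := extM fun z => ⟨fun h => absurd h (h3 z), fun h => absurd h (he z)⟩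
      rw [← this]; exact h2
    | succ k ih =>
      obtain ⟨s, h2, h3⟩ := hi.2 _ ih
      have : s = num (k + 1) := extM fun z => by rw [h3, h1, hsuc]
      rw [← this]; exact h2
  · have key : ∀ j k, j < k → num j ≠ num k := by
      intro j k hjk h
      have h2 : Mem (num j) (num k) := (hm k _).2 ⟨j, hjk, rfl⟩
      rw [h] at h2
      exact not_mem_self _ h2
    intro j k hjk
    rcases Nat.lt_trichotomy j k with h | h | h
    · exact absurd hjk (key j k h)
    · exact h
    · exact absurd hjk.symm (key k j h)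

/-- an element with finitely many elements is finite in the model -/
theorem isFinite_of_finite (x : M) (hx : {y | Mem y x}.Finite) : IsFinite x := by
  obtain ⟨num, hn, hinj, hm⟩ := exists_num (M := M)
  have hfin : Finite {y | Mem y x} := hx.to_subtype
  obtain ⟨k, ⟨e⟩⟩ := Finite.exists_equiv_fin {y | Mem y x}
  choose op hop using fun a b : M => exists_ordPair a b
  have hr : (Set.range fun y : {y | Mem y x} => op y.1 (num (e y))).Finite := Set.finite_range _
  obtain ⟨f, hf⟩ := exists_of_finite hr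
  have happ : ∀ a b, App f a b ↔ ∃ y : {y | Mem y x}, a = y.1 ∧ b = num (e y) := by
    intro a b
    rw [app_iff (hop a b), hf]
    constructor
    · rintro ⟨y, hy⟩
      have h1 := hop y.1 (num (e y))
      change op y.1 (num (e y)) = op a b at hy
      rw [hy] at h1
      obtain ⟨h2, h3⟩ := ordPair_inj (hop a b) h1
      exact ⟨y, h2, h3⟩
    · rintro ⟨y, rfl, rfl⟩
      exact ⟨y, rfl⟩
  refine ⟨num k, f, hn k, ⟨⟨⟨?_, ?_⟩, ?_⟩, ?_⟩⟩
  · intro q hq
    rw [hf] at hq
    obtain ⟨y, rfl⟩ := hq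
    exact ⟨y.1, num (e y), y.2, (hm k _).2 ⟨e y, (e y).2, rfl⟩, hop _ _⟩
  · intro a ha
    refine ⟨num (e ⟨a, ha⟩), (happ _ _).2 ⟨⟨a, ha⟩, rfl, rfl⟩, fun b hb => ?_⟩
    obtain ⟨y, h1, h2⟩ := (happ _ _).1 hb
    have : y = ⟨a, ha⟩ := Subtype.ext h1.symm
    rw [h2, this]
  · intro a a' b h1 h2
    obtain ⟨y, rfl, h3⟩ := (happ _ _).1 h1
    obtain ⟨y', rfl, h4⟩ := (happ _ _).1 h2
    have h5 : e y = e y' := Fin.ext (hinj (h3.symm.trans h4))
    rw [e.injective h5]
  · intro b hb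
    obtain ⟨j, hj, rfl⟩ := (hm k b).1 hb
    refine ⟨(e.symm ⟨j, hj⟩).1, (happ _ _).2 ⟨e.symm ⟨j, hj⟩, rfl, ?_⟩⟩
    rw [Equiv.apply_symm_apply]

end F

end Pool.Agent.H790.Nas
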