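import Pool.Agent.H790.Nas.Vec

set_option autoImplicit false

namespace Pool.Agent.H790.Nas

open FirstOrder FirstOrder.Language
open Pool.Agent.Helper672.Plain (LSet Mem IsPair IsOrdPair Zermelo)
open Pool.Agent.H310Cards
open Pool.Agent.H635Amen (ZF)
open Pool.Agent.H839R3.Nas

universe u

/-- the orbit, as a formula -/
def Orb {M : Type u} [LSet.Structure M] {κ : Type} (ad us dd : M) (ph : κ → M) (P : κ → Prop)
    (β : M) : Prop :=
  Mem β dd ∧ ∀ h : κ, ¬ β = ph h ∧ ((∃ γ, Sum3 ad β (ph h) γ ∧ Mem γ us) ↔ P h)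

theorem DA.orb {M : Type u} [LSet.Structure M] {A : Set M} {ι κ : Type} [Finite κ]
    {ad us dd β : (ι → M) → M} {ph : κ → (ι → M) → M} (had : TA A ad) (hus : TA A us)
    (hdd : TA A dd) (hph : ∀ h, TA A (ph h)) (P : κ → Prop) (hβ : TA A β) :
    DA A (fun v => Orb (ad v) (us v) (dd v) (fun h => ph h v) P (β v)) :=
  DA.and (DA.mem hβ hdd) (DA.fall fun h => DA.and (DA.not (DA.eq hβ (hph h)))
    (DA.iff (DA.ex (DA.and (DA.sum3 had.up hβ.up (hph h).up (TA.var _))
      (DA.mem (TA.var _) hus.up))) (DA.cst (P h))))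

section SMs
variable {U : V → Prop} {N : Type u} [LSet.Structure N] (S : SM U N)
include S

theorem sum3_iff {x y z : N} :
    Sum3 S.Ad x y z ↔ ∃ a b, x = S.pt a ∧ y = S.pt b ∧ z = S.pt (a + b) := by
  have := S.zf
  constructor
  · rintro ⟨q, w, h1, h2, h3⟩
    obtain ⟨a, b, q', h4, h5⟩ := (S.mem_Ad w).1 h3
    obtain ⟨rfl, hz⟩ := ordPair_inj h2 h5
    obtain ⟨hx, hy⟩ := ordPair_inj h1 h4
    exact ⟨a, b, hx, hy, hz⟩
  · rintro ⟨a, b, rfl, rfl, rfl⟩
    obtain ⟨q, hq⟩ := exists_ordPair (S.pt a) (S.pt b)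
    obtain ⟨w, hw⟩ := exists_ordPair q (S.pt (a + b))
    exact ⟨q, w, hq, hw, (S.mem_Ad w).2 ⟨a, b, q, hq, hw⟩⟩

theorem sup_of_empty (e : Finset V) {x : N} (h : S.sup ∅ x) : S.sup e x :=
  S.sup_mono ∅ e x (Finset.empty_subset e) h

theorem sup_zero (e : Finset V) : S.sup e (S.pt 0) := by
  refine S.dfn e Unit (fun w => Sum3 (w (Sum.inl ())) (w (Sum.inr ())) (w (Sum.inr ()))
    (w (Sum.inr ()))) (DA.sum3 (TA.var _) (TA.var _) (TA.var _) (TA.var _)) (fun _ => S.Ad)
    (S.pt 0) (fun _ => sup_of_empty S e S.sup_Ad) ?_ ?_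
  · exact (sum3_iff S).2 ⟨0, 0, rfl, rfl, by simp⟩
  · intro z' hz'
    obtain ⟨a, b, h1, h2, h3⟩ := (sum3_iff S).1 hz'
    change z' = S.pt a at h1
    change z' = S.pt b at h2
    change z' = S.pt (a + b) at h3
    have h4 : a = b := S.inj (h1.symm.trans h2)
    rw [← h4, add_self] at h3
    exact h3

theorem sup_add (e : Finset V) {u v : V} (hu : S.sup e (S.pt u)) (hv : S.sup e (S.pt v)) :
    S.sup e (S.pt (u + v)) := by
  refine S.dfn e (Fin 3) (fun w => Sum3 (w (Sum.inl 0)) (w (Sum.inl 1)) (w (Sum.inl 2))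
    (w (Sum.inr ()))) (DA.sum3 (TA.var _) (TA.var _) (TA.var _) (TA.var _))
    ![S.Ad, S.pt u, S.pt v] (S.pt (u + v)) ?_ ?_ ?_
  · intro i
    fin_cases i
    · exact sup_of_empty S e S.sup_Ad
    · exact hu
    · exact hv
  · exact (sum3_iff S).2 ⟨u, v, rfl, rfl, rfl⟩
  · intro z' hz'
    obtain ⟨a, b, h1, h2, h3⟩ := (sum3_iff S).1 hz'
    change S.pt u = S.pt a at h1
    change S.pt v = S.pt b at h2
    change z' = S.pt (a + b) at h3
    rw [h3, S.inj h1, S.inj h2]

theorem sup_span (e : Finset V) {v : V} (hv : v ∈ Submodule.span (ZMod 2) (e : Set V)) :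
    S.sup e (S.pt v) := by
  induction hv using Submodule.span_induction with
  | mem x hx => exact S.sup_mono {x} e _ (by simpa using hx) (S.sup_pt x)
  | zero => exact sup_zero S e
  | add x y _ _ hx hy => exact sup_add S e hx hy
  | smul t x _ hx =>
    rcases zmod2 t with rfl | rfl
    · rw [zero_smul]; exact sup_zero S e
    · rw [one_smul]; exact hx

theorem orb_iff (E : Submodule (ZMod 2) V) (a : V) (β : N) :
    Orb S.Ad S.Us S.D (fun h : E => S.pt h) (fun h : E => U (a + h)) β ↔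
      ∃ b, β = S.pt b ∧ b ∉ E ∧ ∀ h ∈ E, (U (b + h) ↔ U (a + h)) := by
  unfold Orb
  rw [S.mem_D]
  have h0 : ∀ b h : V, (∃ γ, Sum3 S.Ad (S.pt b) (S.pt h) γ ∧ Mem γ S.Us) ↔ U (b + h) := by
    intro b h
    constructor
    · rintro ⟨γ, h1, h2⟩
      obtain ⟨a', b', h3, h4, h5⟩ := (sum3_iff S).1 h1
      obtain ⟨c, hc, h6⟩ := (S.mem_Us γ).1 h2
      rw [S.inj h3, S.inj h4, S.inj (h5.symm.trans h6)]
      exact hc
    · intro hU
      exact ⟨S.pt (b + h), (sum3_iff S).2 ⟨b, h, rfl, rfl, rfl⟩, (S.mem_Us _).2 ⟨_, hU, rfl⟩⟩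
  constructor
  · rintro ⟨⟨b, rfl⟩, h⟩
    refine ⟨b, rfl, fun hb => (h ⟨b, hb⟩).1 rfl, fun c hc => ?_⟩
    rw [← h0]
    exact (h ⟨c, hc⟩).2
  · rintro ⟨b, rfl, hb, h⟩
    refine ⟨⟨b, rfl⟩, fun c => ⟨fun hc => hb ?_, ?_⟩⟩
    · rw [S.inj hc]; exact c.2
    · rw [h0]; exact h c c.2

theorem app_fam {Y S1 : N} {e : Finset V}
    (hS1 : ∀ q, Mem q S1 ↔ ∃ b Z, IsOrdPair q (S.pt b) Z ∧ (∀ z, Mem z Z → Mem z Y) ∧
      S.sup (insert b e) Z) (b : V) (Z : N) :
    App S1 (S.pt b) Z ↔ (∀ z, Mem z Z → Mem z Y) ∧ S.sup (insert b e) Z := by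
  have := S.zf
  constructor
  · rintro ⟨q, h1, h2⟩
    obtain ⟨b', Z', h3, h4, h5⟩ := (hS1 q).1 h2
    obtain ⟨h6, rfl⟩ := ordPair_inj h1 h3
    rw [S.inj h6]
    exact ⟨h4, h5⟩
  · rintro ⟨h1, h2⟩
    obtain ⟨q, hq⟩ := exists_ordPair (S.pt b) Z
    exact ⟨q, hq, (hS1 q).2 ⟨b, Z, hq, h1, h2⟩⟩

end SMs

/-- the algebraic closure -/
def acl {U : V → Prop} {N : Type u} [LSet.Structure N] (S : SM U N) (Y : N) (e : Finset V) :
    Set N :=
  {x | ∃ z, IsFinite z ∧ (∀ w, Mem w z → Mem w Y) ∧ S.sup e z ∧ Mem x z}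

theorem rr_iff {U : V → Prop} {N : Type u} [LSet.Structure N] (S : SM U N) {Y S1 : N}
    {e : Finset V} (hS1 : ∀ q, Mem q S1 ↔ ∃ b Z, IsOrdPair q (S.pt b) Z ∧
      (∀ z, Mem z Z → Mem z Y) ∧ S.sup (insert b e) Z) (b : V) (x : N) :
    RR S1 (S.pt b) x ↔ x ∈ acl S Y (insert b e) := by
  constructor
  · rintro ⟨Z, h1, h2, h3⟩
    obtain ⟨h4, h5⟩ := (app_fam S hS1 b Z).1 h2
    exact ⟨Z, h1, h4, h5, h3⟩
  · rintro ⟨Z, h1, h4, h5, h3⟩
    exact ⟨Z, h1, (app_fam S hS1 b Z).2 ⟨h4, h5⟩, h3⟩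

theorem taskNas : TaskNas := by
  intro hFto hAcl hD U hE hH N _ S Y hY
  have hzf := S.zf
  have hacl : ∀ e, (acl S Y e).Finite := fun e => hAcl U N S Y hY e
  have aclY : ∀ e x, x ∈ acl S Y e → Mem x Y := by
    rintro e x ⟨z, _, h2, _, h4⟩
    exact h2 x h4
  have acl_mono : ∀ e e', e ⊆ e' → acl S Y e ⊆ acl S Y e' := by
    rintro e e' he x ⟨z, h1, h2, h3, h4⟩
    exact ⟨z, h1, h2, S.sup_mono e e' z he h3, h4⟩
  obtain ⟨e0, he0⟩ := S.sup_ex Y
  obtain ⟨y, hyY, hy0⟩ : ∃ y, Mem y Y ∧ y ∉ acl S Y e0 := by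
    by_contra hcon
    push Not at hcon
    exact hY.1 (isFinite_of_finite Y ((hacl e0).subset hcon))
  obtain ⟨e1, he1⟩ := S.sup_ex y
  have hy1 : y ∈ acl S Y e1 := by
    obtain ⟨z, hz⟩ := exists_of_finite (Set.finite_singleton y)
    refine ⟨z, isFinite_of_finite z ((Set.finite_singleton y).subset fun x hx => (hz x).1 hx),
      fun w hw => ?_, ?_, (hz y).2 rfl⟩
    · rw [(hz w).1 hw]; exact hyY
    · refine S.dfn e1 Unit (fun w => ∀ t, Mem t (w (Sum.inr ())) ↔ t = w (Sum.inl ()))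
        (DA.all (DA.iff (DA.mem (TA.var _) (TA.var _)) (DA.eq (TA.var _) (TA.var _))))
        (fun _ => y) z (fun _ => he1) (fun t => (hz t).trans Set.mem_singleton_iff) ?_
      intro z' hz'
      exact extM fun t => (hz' t).trans ((hz t).trans Set.mem_singleton_iff).symm
  obtain ⟨e, a, hee, hye, hya⟩ : ∃ e a, e0 ⊆ e ∧ y ∉ acl S Y e ∧ y ∈ acl S Y (insert a e) := by
    by_contra hcon
    push Not at hcon
    have : ∀ s : Finset V, y ∉ acl S Y (s ∪ e0) := by
      intro s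
      induction s using Finset.induction_on with
      | empty => simpa using hy0
      | insert a s _ ih =>
        rw [Finset.insert_union]
        exact hcon (s ∪ e0) a Finset.subset_union_right ih
    exact this e1 (acl_mono _ _ Finset.subset_union_left hy1)
  have heY : S.sup e Y := S.sup_mono _ _ _ hee he0
  obtain ⟨S1, hS1e, hS1⟩ := S.fam Y e heY
  have hRR := rr_iff S hS1
  set E := Submodule.span (ZMod 2) (e : Set V) with hEdef
  have hEfg : E.FG := ⟨e, rfl⟩
  have hEfin : Finite E := finite_sub E hEfg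
  have hEset : (E : Set V).Finite := Set.toFinite _
  have close : ∀ z, S.sup e z → (∀ x, Mem x z ↔ x ∈ acl S Y (insert a e)) → False := by
    intro z hz h
    apply hye
    exact ⟨z, isFinite_of_finite z ((hacl _).subset fun x hx => (h x).1 hx),
      fun w hw => aclY _ _ ((h w).1 hw), hz, (h y).2 hya⟩
  obtain ⟨Z0, hZ0⟩ := exists_of_finite (hacl (insert a e))
  have haE : a ∉ E := by
    intro haE
    refine close Z0 ?_ hZ0
    refine S.dfn e (Fin 2) (fun w => ∀ x, Mem x (w (Sum.inr ())) ↔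
      RR (w (Sum.inl 0)) (w (Sum.inl 1)) x)
      (DA.all (DA.iff (DA.mem (TA.var _) (TA.var _)) (DA.rr (TA.var _) (TA.var _) (TA.var _))))
      ![S1, S.pt a] Z0 ?_ ?_ ?_
    · intro i
      fin_cases i
      · exact hS1e
      · exact sup_span S e haE
    · intro x
      exact (hZ0 x).trans (hRR a x).symm
    · intro z' hz'
      exact extM fun x => (hz' x).trans ((hRR a x).trans (hZ0 x).symm)
  -- the orbit
  set O : Set V := {b | b ∉ E ∧ ∀ h ∈ E, (U (b + h) ↔ U (a + h))} with hO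
  have haO : a ∈ O := ⟨haE, fun h _ => Iff.rfl⟩
  have hne : ¬ ∀ b ∈ O, acl S Y (insert b e) = acl S Y (insert a e) := by
    intro hall
    have hdef : ∀ x, (∃ β, Orb S.Ad S.Us S.D (fun h : E => S.pt h) (fun h : E => U (a + h)) β ∧
        RR S1 β x) ↔ x ∈ acl S Y (insert a e) := by
      intro x
      constructor
      · rintro ⟨β, h1, h2⟩
        obtain ⟨b, rfl, hb, hb'⟩ := (orb_iff S E a β).1 h1
        rw [hRR, hall b ⟨hb, hb'⟩] at h2
        exact h2
      · intro h
        exact ⟨S.pt a, (orb_iff S E a _).2 ⟨a, rfl, haO.1, haO.2⟩, (hRR a x).2 h⟩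
    refine close Z0 ?_ hZ0
    refine S.dfn e (Fin 4 ⊕ E) (fun w => ∀ x, Mem x (w (Sum.inr ())) ↔
      ∃ β, Orb (w (Sum.inl (Sum.inl 1))) (w (Sum.inl (Sum.inl 2))) (w (Sum.inl (Sum.inl 3)))
        (fun h : E => w (Sum.inl (Sum.inr h))) (fun h : E => U (a + h)) β ∧
        RR (w (Sum.inl (Sum.inl 0))) β x)
      (DA.all (DA.iff (DA.mem (TA.var _) (TA.var _)) (DA.ex (DA.and
        (DA.orb (TA.var _) (TA.var _) (TA.var _) (fun h => TA.var _) _ (TA.var _))
        (DA.rr (TA.var _) (TA.var _) (TA.var _))))))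
      (Sum.elim ![S1, S.Ad, S.Us, S.D] (fun h : E => S.pt h)) Z0 ?_ ?_ ?_
    · rintro (i | h)
      · fin_cases i
        · exact hS1e
        · exact sup_of_empty S e S.sup_Ad
        · exact sup_of_empty S e S.sup_Us
        · exact sup_of_empty S e S.sup_D
      · exact sup_span S e h.2
    · intro x
      exact (hZ0 x).trans (hdef x).symm
    · intro z' hz'
      exact extM fun x => (hz' x).trans ((hdef x).trans (hZ0 x).symm)
  -- the automorphisms preserve equality of closures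
  have kk : ∀ (h : V ≃+ V), (∀ v, U (h v) ↔ U v) → (∀ v ∈ E, h v = v) → ∀ b c,
      acl S Y (insert b e) = acl S Y (insert c e) →
      acl S Y (insert (h b) e) = acl S Y (insert (h c) e) := by
    intro h hU hhE b c hbc
    have hA : Aut U e h := ⟨hU, fun v hv => hhE v (Submodule.subset_span hv)⟩
    have h1 := S.key e h hA (Fin 3) (fun w => ∀ x, RR (w 0) (w 1) x ↔ RR (w 0) (w 2) x)
      (DA.all (DA.iff (DA.rr (TA.var _) (TA.var _) (TA.var _))
        (DA.rr (TA.var _) (TA.var _) (TA.var _))))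
      ![S1, S.pt b, S.pt c] ![S1, S.pt (h b), S.pt (h c)] (by
        intro i
        fin_cases i
        · exact Or.inl ⟨rfl, hS1e⟩
        · exact Or.inr ⟨b, rfl, rfl⟩
        · exact Or.inr ⟨c, rfl, rfl⟩)
    have h2 := h1.1 (fun x => by
      change RR S1 (S.pt b) x ↔ RR S1 (S.pt c) x
      rw [hRR, hRR, hbc])
    ext x
    rw [← hRR, ← hRR]
    exact h2 x
  -- generic points
  have gen : ∀ (B : Finset V) (F : Set V), ∃ m, m ∉ B ∧ ∀ v ∈ B, (U (m + v) ↔ v ∈ F) := hE
  have claim2 : ∀ b ∈ O, ∀ c ∈ O, b + c ∉ E → acl S Y (insert b e) = acl S Y (insert c e) →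
      ∀ d ∈ O, ∀ d' ∈ O, d + d' ∉ E → acl S Y (insert d e) = acl S Y (insert d' e) := by
    intro b hb c hc hbc hbceq d hd d' hd' hdd
    classical
    have hf1 : ((fun z => d + z) '' (E : Set V)).Finite := hEset.image _
    have hf2 : ((fun z => d' + z) '' (E : Set V)).Finite := hEset.image _
    obtain ⟨m, hm, hmU⟩ := gen (hEset.toFinset ∪ hf1.toFinset ∪ hf2.toFinset)
      {v | (v ∈ E ∧ U (a + v)) ∨ (v + d ∈ E ∧ U (b + c + (v + d))) ∨
        (v + d' ∈ E ∧ U (b + c + (v + d')))}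
    have hmem : ∀ v, v ∈ hEset.toFinset ∪ hf1.toFinset ∪ hf2.toFinset ↔
        v ∈ E ∨ v + d ∈ E ∨ v + d' ∈ E := by
      intro v
      simp only [Finset.mem_union, Set.Finite.mem_toFinset, SetLike.mem_coe, Set.mem_image, or_assoc]
      refine or_congr Iff.rfl (or_congr ?_ ?_)
      · constructor
        · rintro ⟨z, hz, rfl⟩
          rw [add_comm d z, add_self']; exact hz
        · intro h
          exact ⟨v + d, h, by rw [add_comm v d, ← add_assoc, add_self, zero_add]⟩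
      · constructor
        · rintro ⟨z, hz, rfl⟩
          rw [add_comm d' z, add_self']; exact hz
        · intro h
          exact ⟨v + d', h, by rw [add_comm v d', ← add_assoc, add_self, zero_add]⟩
    rw [hmem] at hm
    push Not at hm
    obtain ⟨hmE, hmd, hmd'⟩ := hm
    have esub : ∀ {u v : V}, u + v ∈ E → v ∈ E → u ∈ E := by
      intro u v h1 h2
      have := E.add_mem h1 h2
      rwa [add_self'] at this
    have hmO : ∀ z ∈ E, (U (m + z) ↔ U (a + z)) := by
      intro z hz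
      rw [hmU z ((hmem z).2 (Or.inl hz))]
      constructor
      · rintro (⟨-, h⟩ | ⟨h, -⟩ | ⟨h, -⟩)
        · exact h
        · exact absurd (esub (by rwa [add_comm] at h) hz) hd.1
        · exact absurd (esub (by rwa [add_comm] at h) hz) hd'.1
      · intro h
        exact Or.inl ⟨hz, h⟩
    have hmd1 : ∀ z ∈ E, (U (d + m + z) ↔ U (b + c + z)) := by
      intro z hz
      have e1 : d + m + z = m + (d + z) := by abel
      have e2 : d + z + d = z := by rw [add_comm d z, add_self']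
      rw [e1, hmU (d + z) ((hmem _).2 (Or.inr (Or.inl (by rw [e2]; exact hz))))]
      constructor
      · rintro (⟨h, -⟩ | ⟨-, h⟩ | ⟨h, -⟩)
        · exact absurd (esub h hz) hd.1
        · rw [e2] at h; exact h
        · exfalso
          have e3 : d + z + d' = d + d' + z := by abel
          rw [e3] at h
          exact hdd (esub h hz)
      · intro h
        exact Or.inr (Or.inl ⟨by rw [e2]; exact hz, by rw [e2]; exact h⟩)
    have hmd2 : ∀ z ∈ E, (U (d' + m + z) ↔ U (b + c + z)) := by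
      intro z hz
      have e1 : d' + m + z = m + (d' + z) := by abel
      have e2 : d' + z + d' = z := by rw [add_comm d' z, add_self']
      rw [e1, hmU (d' + z) ((hmem _).2 (Or.inr (Or.inr (by rw [e2]; exact hz))))]
      constructor
      · rintro (⟨h, -⟩ | ⟨h, -⟩ | ⟨-, h⟩)
        · exact absurd (esub h hz) hd'.1
        · exfalso
          have e3 : d' + z + d = d + d' + z := by abel
          rw [e3] at h
          exact hdd (esub h hz)
        · rw [e2] at h; exact h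
      · intro h
        exact Or.inr (Or.inr ⟨by rw [e2]; exact hz, by rw [e2]; exact h⟩)
    obtain ⟨h, k1, k2, k3, k4⟩ := move2 hH E hEfg hb.1 hc.1 hbc hd.1 hmE
      (by rwa [add_comm]) (fun z hz => (hd.2 z hz).trans (hb.2 z hz).symm)
      (fun z hz => (hmO z hz).trans (hc.2 z hz).symm) hmd1
    obtain ⟨h', k1', k2', k3', k4'⟩ := move2 hH E hEfg hb.1 hc.1 hbc hd'.1 hmE
      (by rwa [add_comm]) (fun z hz => (hd'.2 z hz).trans (hb.2 z hz).symm)
      (fun z hz => (hmO z hz).trans (hc.2 z hz).symm) hmd2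
    have r1 := kk h k1 k2 b c hbceq
    have r2 := kk h' k1' k2' b c hbceq
    rw [k3, k4] at r1
    rw [k3', k4'] at r2
    rw [r1, r2]
  -- a point of the orbit outside a finite set
  have third : ∀ B : Finset V, ∃ m ∈ O, m ∉ B := by
    intro B
    classical
    obtain ⟨m, hm, hmU⟩ := gen (hEset.toFinset ∪ B) {v | v ∈ E ∧ U (a + v)}
    rw [Finset.mem_union, Set.Finite.mem_toFinset, SetLike.mem_coe] at hm
    push Not at hm
    refine ⟨m, ⟨hm.1, fun z hz => ?_⟩, hm.2⟩
    rw [hmU z (Finset.mem_union_left _ (by simpa using hz))]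
    exact ⟨fun h => h.2, fun h => ⟨hz, h⟩⟩
  have claim3 : ∀ b ∈ O, ∀ c ∈ O, acl S Y (insert b e) = acl S Y (insert c e) → b + c ∈ E := by
    intro b hb c hc hbceq
    by_contra hbc
    apply hne
    intro d hd
    by_cases hda : d + a ∈ E
    · classical
      have hf1 : ((fun z => d + z) '' (E : Set V)).Finite := hEset.image _
      have hf2 : ((fun z => a + z) '' (E : Set V)).Finite := hEset.image _
      obtain ⟨m, hmO, hm⟩ := third (hf1.toFinset ∪ hf2.toFinset)
      rw [Finset.mem_union, Set.Finite.mem_toFinset, Set.Finite.mem_toFinset] at hm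
      push Not at hm
      have hdm : d + m ∉ E := by
        intro h
        exact hm.1 ⟨d + m, h, by
          change d + (d + m) = m
          rw [← add_assoc, add_self, zero_add]⟩
      have ham : m + a ∉ E := by
        intro h
        exact hm.2 ⟨m + a, h, by
          change a + (m + a) = m
          rw [add_comm a, add_self']⟩
      exact (claim2 b hb c hc hbc hbceq d hd m hmO hdm).trans
        (claim2 b hb c hc hbc hbceq m hmO a haO ham)
    · exact claim2 b hb c hc hbc hbceq d hd a haO hda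
  -- cardinalities
  set n := (hacl (insert a e)).toFinset.card with hn
  have hcard : ∀ b ∈ O, (hacl (insert b e)).toFinset.card ≤ n := by
    intro b hb
    obtain ⟨h, k1, k2, k3⟩ := move1 hH E hEfg haE hb.1 (fun z hz => hb.2 z hz)
    have hA : Aut U e h := ⟨k1, fun v hv => k2 v (Submodule.subset_span hv)⟩
    have h1 := S.key e h hA (Fin 2) (fun w => ∃ x : Fin n → N, ∀ z, RR (w 0) (w 1) z →
        ∃ i, z = x i)
      (DA.exN (DA.all (DA.imp (DA.rr (TA.var _) (TA.var _) (TA.var _))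
        (DA.fex fun i => DA.eq (TA.var _) (TA.var _)))))
      ![S1, S.pt a] ![S1, S.pt (h a)] (by
        intro i
        fin_cases i
        · exact Or.inl ⟨rfl, hS1e⟩
        · exact Or.inr ⟨a, rfl, rfl⟩)
    have h2 := h1.1 (by
      refine ⟨fun i => (((hacl (insert a e)).toFinset.equivFin.symm i : _) : N), fun z hz => ?_⟩
      change RR S1 (S.pt a) z at hz
      rw [hRR] at hz
      refine ⟨(hacl (insert a e)).toFinset.equivFin ⟨z, by simpa using hz⟩, ?_⟩
      simp)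
    obtain ⟨x, hx⟩ := h2
    change ∀ z, RR S1 (S.pt (h a)) z → ∃ i, z = x i at hx
    rw [k3] at hx
    classical
    calc (hacl (insert b e)).toFinset.card ≤ (Finset.univ.image x).card := by
          apply Finset.card_le_card
          intro z hz
          rw [Set.Finite.mem_toFinset, ← hRR] at hz
          obtain ⟨i, rfl⟩ := hx z hz
          exact Finset.mem_image_of_mem _ (Finset.mem_univ i)
      _ ≤ (Finset.univ : Finset (Fin n)).card := Finset.card_image_le
      _ = n := by simp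
  -- the sets
  have hsep1 : DA (Set.univ : Set N) (fun v : Fin 1 → N => Orb S.Ad S.Us S.D
      (fun h : E => S.pt h) (fun h : E => U (a + h)) (v 0)) :=
    DA.orb (A := Set.univ) (κ := E) (ad := fun _ => S.Ad) (us := fun _ => S.Us)
      (dd := fun _ => S.D) (ph := fun h _ => S.pt h) (TA.const (Set.mem_univ _))
      (TA.const (Set.mem_univ _)) (TA.const (Set.mem_univ _))
      (fun h => TA.const (Set.mem_univ _)) _ (TA.var 0)
  obtain ⟨dN, hdN⟩ := sep (S := fun q => Orb S.Ad S.Us S.D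
      (fun h : E => S.pt h) (fun h : E => U (a + h)) q) hsep1 S.D
  have hdN' : ∀ β, Mem β dN ↔ ∃ b ∈ O, β = S.pt b := by
    intro β
    rw [hdN, orb_iff]
    constructor
    · rintro ⟨-, b, rfl, h1, h2⟩
      exact ⟨b, ⟨h1, h2⟩, rfl⟩
    · rintro ⟨b, ⟨h1, h2⟩, rfl⟩
      exact ⟨(S.mem_D _).2 ⟨b, rfl⟩, b, rfl, h1, h2⟩
  obtain ⟨P, hP⟩ := exists_prod S.D Y
  have hsep2 : DA (Set.univ : Set N) (fun v : Fin 1 → N => ∃ β x, IsOrdPair (v 0) β x ∧
      Mem β dN ∧ RR S1 β x) :=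
    DA.ex (DA.ex (DA.and (DA.ordPair (TA.var _) (TA.var _) (TA.var _))
      (DA.and (DA.mem (TA.var _) (TA.const (Set.mem_univ _)))
        (DA.rr (s := fun _ => S1) (TA.const (Set.mem_univ _)) (TA.var _) (TA.var _)))))
  obtain ⟨g, hg⟩ := sep (S := fun q => ∃ β x, IsOrdPair q β x ∧ Mem β dN ∧ RR S1 β x) hsep2 P
  have happ : ∀ b ∈ O, ∀ x, App g (S.pt b) x ↔ x ∈ acl S Y (insert b e) := by
    intro b hb x
    rw [← hRR]
    constructor
    · rintro ⟨q, h1, h2⟩
      obtain ⟨-, β, x', h3, -, h5⟩ := (hg q).1 h2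
      obtain ⟨rfl, rfl⟩ := ordPair_inj h1 h3
      exact h5
    · intro h
      obtain ⟨q, hq⟩ := exists_ordPair (S.pt b) x
      refine ⟨q, hq, (hg q).2 ⟨hP _ _ q ((S.mem_D _).2 ⟨b, rfl⟩) (aclY _ _ ((hRR b x).1 h)) hq,
        _, _, hq, (hdN' _).2 ⟨b, hb, rfl⟩, h⟩⟩
  have hgd : ∀ β x, App g β x → Mem β dN := by
    rintro β x ⟨q, h1, h2⟩
    obtain ⟨-, β', x', h3, h4, -⟩ := (hg q).1 h2
    obtain ⟨rfl, rfl⟩ := ordPair_inj h1 h3
    exact h4
  refine hFto N S.zf S.std Y hY n dN g ?_ ?_ ?_ ?_ ?_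
  · intro b hb
    exact hD U hE hH N S b fun x hx => ((hdN x).1 (hb x hx)).1
  · intro hfin
    have h1 := S.std _ hfin
    have h2 : (O : Set V).Finite := by
      have h3 : (S.pt '' O).Finite := h1.subset (by
        rintro _ ⟨b, hb, rfl⟩
        exact (hdN' _).2 ⟨b, hb, rfl⟩)
      exact Set.Finite.of_finite_image h3 (S.inj.injOn)
    obtain ⟨m, hm, hm'⟩ := third h2.toFinset
    exact hm' (by simpa using hm)
  · intro β hβ
    obtain ⟨b, hb, rfl⟩ := (hdN' β).1 hβ
    refine ⟨(hacl (insert b e)).toFinset, hcard b hb, fun z => ?_⟩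
    rw [happ b hb, Set.Finite.mem_toFinset]
  · intro β z h1 h2
    obtain ⟨b, hb, rfl⟩ := (hdN' β).1 h2
    exact aclY _ _ ((happ b hb z).1 h1)
  · intro β hβ
    obtain ⟨b, hb, rfl⟩ := (hdN' β).1 hβ
    refine Set.Finite.subset (((hEset.image (fun z => b + z)).image S.pt)) ?_
    rintro _ ⟨h1, h2⟩
    obtain ⟨c, hc, rfl⟩ := (hdN' _).1 h1
    have h3 : acl S Y (insert b e) = acl S Y (insert c e) := by
      ext z
      rw [← happ b hb, ← happ c hc]
      exact h2 z
    have h4 := claim3 b hb c hc h3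
    exact ⟨c, ⟨b + c, h4, by
      change b + (b + c) = c
      rw [← add_assoc, add_self, zero_add]⟩, rfl⟩

end Pool.Agent.H790.Nas
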