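import Pool.Agent.H790.Nas.Model

set_option autoImplicit false

namespace Pool.Agent.H790.Nas

open Pool.Agent.H839R3.Nas

/-- `V` has characteristic two -/
theorem add_self (v : V) : v + v = 0 := by
  ext i
  simp [CharTwo.add_self_eq_zero]

theorem add_self' (u v : V) : u + v + v = u := by rw [add_assoc, add_self, add_zero]

theorem neg_eq (v : V) : -v = v := (eq_neg_of_add_eq_zero_left (add_self v)).symm

theorem exists_functional (p : Submodule (ZMod 2) V) (x : V) (hx : x ∉ p) :
    ∃ f : V →ₗ[ZMod 2] ZMod 2, f x = 1 ∧ ∀ y ∈ p, f y = 0 := by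
  obtain ⟨f, hf, hp⟩ := Submodule.exists_dual_map_eq_bot_of_notMem hx inferInstance
  refine ⟨f, ?_, fun y hy => ?_⟩
  · have h2 : ∀ t : ZMod 2, t ≠ 0 → t = 1 := by decide
    exact h2 _ hf
  · have : f y ∈ p.map f := ⟨y, hy, rfl⟩
    rw [hp] at this
    simpa using this

theorem zmod2 (t : ZMod 2) : t = 0 ∨ t = 1 := by
  revert t; decide

/-- the extension of a linear map to an automorphism -/
theorem homog_lin {U : V → Prop} (hH : Homog U) (A : Submodule (ZMod 2) V) (hA : Finite A)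
    (g : V →ₗ[ZMod 2] V) (hinj : ∀ v ∈ A, g v = 0 → v = 0) (hU : ∀ v ∈ A, (U (g v) ↔ U v)) :
    ∃ h : V ≃+ V, (∀ v, U (h v) ↔ U v) ∧ ∀ v ∈ A, h v = g v := by
  have hi : Function.Injective (g.toAddMonoidHom.comp A.toAddSubgroup.subtype) := by
    rw [injective_iff_map_eq_zero]
    intro v hv
    exact Subtype.ext (hinj v.1 v.2 hv)
  obtain ⟨h, h1, h2⟩ := hH A.toAddSubgroup (g.toAddMonoidHom.comp A.toAddSubgroup.subtype)
    hA hi (fun v => hU v.1 v.2)
  exact ⟨h, h1, fun v hv => h2 ⟨v, hv⟩⟩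

theorem mem_sup_span {E : Submodule (ZMod 2) V} {b c v : V}
    (h : v ∈ E ⊔ Submodule.span (ZMod 2) {b, c}) :
    ∃ z ∈ E, v = z ∨ v = z + b ∨ v = z + c ∨ v = z + (b + c) := by
  obtain ⟨z, hz, w, hw, rfl⟩ := Submodule.mem_sup.1 h
  obtain ⟨s, t, rfl⟩ := Submodule.mem_span_pair.1 hw
  refine ⟨z, hz, ?_⟩
  rcases zmod2 s with rfl | rfl <;> rcases zmod2 t with rfl | rfl <;> simp

theorem not_mem_sup {E : Submodule (ZMod 2) V} {b c : V} (hb : b ∉ E) (hbc : b + c ∉ E) :
    b ∉ E ⊔ Submodule.span (ZMod 2) {c} := by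
  intro h
  obtain ⟨z, hz, w, hw, hzw⟩ := Submodule.mem_sup.1 h
  obtain ⟨s, rfl⟩ := Submodule.mem_span_singleton.1 hw
  rcases zmod2 s with rfl | rfl
  · apply hb
    rw [← hzw]; simpa using hz
  · apply hbc
    rw [← hzw, one_smul, add_self']
    exact hz

theorem finite_sub (A : Submodule (ZMod 2) V) (hA : A.FG) : Finite A := by
  have : Module.Finite (ZMod 2) A := Module.Finite.iff_fg.2 hA
  exact Module.finite_of_finite (ZMod 2)

/-- automorphisms over `E` moving `b` to `d` and `c` to `m` -/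
theorem move2 {U : V → Prop} (hH : Homog U) (E : Submodule (ZMod 2) V) (hE : E.FG)
    {b c d m : V} (hb : b ∉ E) (hc : c ∉ E) (hbc : b + c ∉ E) (hd : d ∉ E) (hm : m ∉ E)
    (hdm : d + m ∉ E) (h1 : ∀ z ∈ E, (U (d + z) ↔ U (b + z)))
    (h2 : ∀ z ∈ E, (U (m + z) ↔ U (c + z)))
    (h3 : ∀ z ∈ E, (U (d + m + z) ↔ U (b + c + z))) :
    ∃ h : V ≃+ V, (∀ v, U (h v) ↔ U v) ∧ (∀ v ∈ E, h v = v) ∧ h b = d ∧ h c = m := by
  obtain ⟨f1, f1b, f1E⟩ := exists_functional _ b (not_mem_sup (c := c) hb hbc)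
  obtain ⟨f2, f2c, f2E⟩ := exists_functional _ c (not_mem_sup (c := b) hc (by rwa [add_comm]))
  have f1c : f1 c = 0 := f1E c (Submodule.mem_sup_right (Submodule.mem_span_singleton_self c))
  have f2b : f2 b = 0 := f2E b (Submodule.mem_sup_right (Submodule.mem_span_singleton_self b))
  let g : V →ₗ[ZMod 2] V := LinearMap.id + f1.smulRight (b + d) + f2.smulRight (c + m)
  have hg : ∀ v, g v = v + f1 v • (b + d) + f2 v • (c + m) := fun v => rfl
  have gz : ∀ z ∈ E, g z = z := by
    intro z hz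
    rw [hg, f1E z (Submodule.mem_sup_left hz), f2E z (Submodule.mem_sup_left hz)]
    simp
  have gb : g b = d := by
    rw [hg, f1b, f2b]
    simp only [one_smul, zero_smul, add_zero]
    rw [← add_assoc, add_self, zero_add]
  have gc : g c = m := by
    rw [hg, f1c, f2c]
    simp only [one_smul, zero_smul, add_zero]
    rw [← add_assoc, add_self, zero_add]
  have hfg : (E ⊔ Submodule.span (ZMod 2) {b, c}).FG :=
    hE.sup (Submodule.fg_span (Set.toFinite _))
  have nz : ∀ {x z : V}, x ∉ E → z ∈ E → z + x ≠ 0 := by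
    intro x z hx hz h0
    apply hx
    have : x = z := by
      have h4 : z + x + x = x := by rw [h0, zero_add]
      rw [add_self'] at h4
      exact h4.symm
    rw [this]; exact hz
  obtain ⟨h, hU, hh⟩ := homog_lin hH (E ⊔ Submodule.span (ZMod 2) {b, c}) (finite_sub _ hfg) g
    (by
      intro v hv h0
      obtain ⟨z, hz, h4⟩ := mem_sup_span hv
      rcases h4 with rfl | rfl | rfl | rfl
      · rw [gz _ hz] at h0; exact h0
      · rw [map_add, gz _ hz, gb] at h0; exact absurd h0 (nz hd hz)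
      · rw [map_add, gz _ hz, gc] at h0; exact absurd h0 (nz hm hz)
      · rw [map_add, map_add, gz _ hz, gb, gc] at h0; exact absurd h0 (nz hdm hz))
    (by
      intro v hv
      obtain ⟨z, hz, h4⟩ := mem_sup_span hv
      rcases h4 with rfl | rfl | rfl | rfl
      · rw [gz _ hz]
      · rw [map_add, gz _ hz, gb, add_comm z d, add_comm z b]; exact h1 z hz
      · rw [map_add, gz _ hz, gc, add_comm z m, add_comm z c]; exact h2 z hz
      · rw [map_add, map_add, gz _ hz, gb, gc, add_comm z, add_comm z]; exact h3 z hz)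
  refine ⟨h, hU, fun v hv => ?_, ?_, ?_⟩
  · rw [hh v (Submodule.mem_sup_left hv), gz v hv]
  · rw [hh b (Submodule.mem_sup_right (Submodule.subset_span (by simp))), gb]
  · rw [hh c (Submodule.mem_sup_right (Submodule.subset_span (by simp))), gc]

/-- automorphisms over `E` moving `b` to `d` -/
theorem move1 {U : V → Prop} (hH : Homog U) (E : Submodule (ZMod 2) V) (hE : E.FG)
    {b d : V} (hb : b ∉ E) (hd : d ∉ E) (h1 : ∀ z ∈ E, (U (d + z) ↔ U (b + z))) :
    ∃ h : V ≃+ V, (∀ v, U (h v) ↔ U v) ∧ (∀ v ∈ E, h v = v) ∧ h b = d := by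
  obtain ⟨f1, f1b, f1E⟩ := exists_functional _ b hb
  let g : V →ₗ[ZMod 2] V := LinearMap.id + f1.smulRight (b + d)
  have hg : ∀ v, g v = v + f1 v • (b + d) := fun v => rfl
  have gz : ∀ z ∈ E, g z = z := by
    intro z hz
    rw [hg, f1E z hz]
    simp
  have gb : g b = d := by
    rw [hg, f1b]
    simp only [one_smul]
    rw [← add_assoc, add_self, zero_add]
  have hfg : (E ⊔ Submodule.span (ZMod 2) {b, b}).FG :=
    hE.sup (Submodule.fg_span (Set.toFinite _))
  have nz : ∀ {x z : V}, x ∉ E → z ∈ E → z + x ≠ 0 := by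
    intro x z hx hz h0
    apply hx
    have : x = z := by
      have h4 : z + x + x = x := by rw [h0, zero_add]
      rw [add_self'] at h4
      exact h4.symm
    rw [this]; exact hz
  obtain ⟨h, hU, hh⟩ := homog_lin hH (E ⊔ Submodule.span (ZMod 2) {b, b}) (finite_sub _ hfg) g
    (by
      intro v hv h0
      obtain ⟨z, hz, h4⟩ := mem_sup_span hv
      rcases h4 with rfl | rfl | rfl | rfl
      · rw [gz _ hz] at h0; exact h0
      · rw [map_add, gz _ hz, gb] at h0; exact absurd h0 (nz hd hz)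
      · rw [map_add, gz _ hz, gb] at h0; exact absurd h0 (nz hd hz)
      · rw [add_self, add_zero, gz _ hz] at h0; rw [add_self, add_zero]; exact h0)
    (by
      intro v hv
      obtain ⟨z, hz, h4⟩ := mem_sup_span hv
      rcases h4 with rfl | rfl | rfl | rfl
      · rw [gz _ hz]
      · rw [map_add, gz _ hz, gb, add_comm z d, add_comm z b]; exact h1 z hz
      · rw [map_add, gz _ hz, gb, add_comm z d, add_comm z b]; exact h1 z hz
      · rw [add_self, add_zero, gz _ hz])
  refine ⟨h, hU, fun v hv => ?_, ?_⟩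
  · rw [hh v (Submodule.mem_sup_left hv), gz v hv]
  · rw [hh b (Submodule.mem_sup_right (Submodule.subset_span (by simp))), gb]

end Pool.Agent.H790.Nas
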